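import Mathlib
import Pool.Agent.H709Exc.J_girth_graph
import Pool.Agent.BAPp.ExSigns

set_option autoImplicit false

namespace Pool.Agent.X145.DN

open Finset SimpleGraph

/-! ### Discrepancy of few sets -/

theorem exists_disc {ι : Type*} [Fintype ι] [Nonempty ι] [DecidableEq ι] {H : Type*} [Fintype H]
    [Nonempty H] (F : H → Finset ι) (ε : ℝ) (hε : 0 < ε)
    (h : 2 * Real.log (2 * Fintype.card H) ≤ ε ^ 2 * Fintype.card ι) :
    ∃ e : ι → Bool, ∀ h, |∑ i ∈ F h, BAPp.sgn (e i)| ≤ ε * Fintype.card ι := by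
  obtain ⟨n, hn⟩ : ∃ n : ℝ, n = Fintype.card ι := ⟨_, rfl⟩
  obtain ⟨Lg, hLg⟩ : ∃ L : ℝ, L = Real.log (2 * Fintype.card H) := ⟨_, rfl⟩
  have hn0 : 0 < n := by rw [hn]; exact_mod_cast Fintype.card_pos
  have hL : 0 < Lg := by
    rw [hLg]
    apply Real.log_pos
    have : (1:ℝ) ≤ Fintype.card H := by exact_mod_cast Fintype.card_pos
    linarith
  obtain ⟨K, hKd⟩ : ∃ K : ℝ, K = Real.sqrt (2 * Lg) := ⟨_, rfl⟩
  have hK : 0 < K := by rw [hKd]; exact Real.sqrt_pos.2 (by linarith)
  have hK2 : K ^ 2 = 2 * Lg := by rw [hKd]; exact Real.sq_sqrt (by linarith)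
  obtain ⟨e, he⟩ := BAPp.ExSigns.exists_signs (fun h i => if i ∈ F h then K else 0) K (by
    intro h i
    split_ifs
    · rw [abs_of_pos hK]
    · simp [hK.le])
  refine ⟨e, fun h' => ?_⟩
  have h1 := he h'
  have h2 : ∑ i, BAPp.sgn (e i) * (if i ∈ F h' then K else 0) = K * ∑ i ∈ F h', BAPp.sgn (e i) := by
    rw [Finset.mul_sum]
    simp only [mul_ite, mul_zero]
    rw [Finset.sum_ite_mem, Finset.univ_inter]
    exact Finset.sum_congr rfl fun i _ => mul_comm _ _
  rw [h2, abs_mul, abs_of_pos hK, hK2, ← hLg, ← hn] at h1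
  rw [← hn]
  rw [← hLg, ← hn] at h
  have h3 : |∑ i ∈ F h', BAPp.sgn (e i)| ≤ Real.sqrt n * K := by
    have h4 : K * |∑ i ∈ F h', BAPp.sgn (e i)| ≤ K * (Real.sqrt n * K) := by
      calc K * |∑ i ∈ F h', BAPp.sgn (e i)| ≤ Real.sqrt n * (Lg + 2 * Lg / 2) := h1
        _ = Real.sqrt n * K ^ 2 := by rw [hK2]; ring
        _ = K * (Real.sqrt n * K) := by ring
    exact le_of_mul_le_mul_left h4 hK
  have h5 : Real.sqrt n * K ≤ ε * n := by
    rw [hKd, ← Real.sqrt_mul hn0.le]
    apply Real.sqrt_le_iff.2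
    refine ⟨by positivity, ?_⟩
    nlinarith
  exact h3.trans h5

/-- the same for subsets of a finite set, with colours -/
theorem exists_col {α : Type*} [DecidableEq α] (E : Finset α) (hE : E.Nonempty) {H : Type*}
    [Fintype H] [Nonempty H] (F : H → Finset α) (hF : ∀ h, F h ⊆ E) (ε : ℝ) (hε : 0 < ε)
    (h : 2 * Real.log (2 * Fintype.card H) ≤ ε ^ 2 * E.card) :
    ∃ κ : α → Bool, ∀ h, |∑ i ∈ F h, (if κ i = true then (-1:ℝ) else 1)| ≤ ε * E.card := by
  classical
  have : Nonempty E := hE.to_subtype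
  obtain ⟨e, he⟩ := exists_disc (ι := E) (fun h => (univ : Finset E).filter fun x => x.1 ∈ F h) ε hε
    (by rw [Fintype.card_coe]; exact h)
  refine ⟨fun a => if ha : a ∈ E then !(e ⟨a, ha⟩) else false, fun h' => ?_⟩
  have h1 := he h'
  rw [Fintype.card_coe] at h1
  convert h1 using 2
  refine (Finset.sum_bij (fun (x : E) _ => x.1) ?_ ?_ ?_ ?_).symm
  · intro x hx
    exact (Finset.mem_filter.1 hx).2
  · intro x _ y _ hxy
    exact Subtype.ext hxy
  · intro a ha
    exact ⟨⟨a, hF _ ha⟩, by simp [ha], rfl⟩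
  · intro x _
    have hx := x.2
    simp only [hx, dif_pos, BAPp.sgn]
    cases e x <;> simp

/-! ### Girth and Lipschitz functions -/

theorem le_of_walk {V : Type*} {G : SimpleGraph V} (F : V → ℕ∞) (s : Sym2 V)
    (hF : ∀ u v, G.Adj u v → s(u, v) ≠ s → F v ≤ F u + 1) :
    ∀ {u v : V} (p : G.Walk u v), s ∉ p.edges → F v ≤ F u + p.length
  | _, _, .nil, _ => by simp
  | u, v, .cons (v := w) h p, hs => by
    simp only [Walk.edges_cons, List.mem_cons, not_or] at hs
    have h1 := hF _ _ h (Ne.symm hs.1)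
    have h2 := le_of_walk F s hF p hs.2
    calc F v ≤ F w + p.length := h2
      _ ≤ (F u + 1) + p.length := by gcongr
      _ = F u + (Walk.cons h p).length := by
        rw [Walk.length_cons]
        push_cast
        rw [add_assoc, add_comm (1 : ℕ∞)]

theorem girth_of_cert {V : Type*} {G : SimpleGraph V} (g : ℕ∞)
    (h : ∀ a b, G.Adj a b → ∃ F : V → ℕ∞, ((F a = 0 ∧ g ≤ F b) ∨ (F b = 0 ∧ g ≤ F a)) ∧
      ∀ u v, G.Adj u v → s(u, v) ≠ s(a, b) → F v ≤ F u + 1) : g ≤ G.egirth := by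
  rw [SimpleGraph.le_egirth]
  intro a w hw
  cases w with
  | nil => exact absurd hw (by simp)
  | @cons _ b _ hab p =>
    rw [Walk.cons_isCycle_iff] at hw
    obtain ⟨F, h1, h2⟩ := h _ _ hab
    have hlen : ((Walk.cons hab p).length : ℕ∞) = p.length + 1 := by
      rw [Walk.length_cons]; push_cast; rfl
    rw [hlen]
    rcases h1 with ⟨h0, hg⟩ | ⟨h0, hg⟩
    · have h3 := le_of_walk F s(a, b) h2 p.reverse (by simpa using hw.2)
      rw [h0, zero_add, Walk.length_reverse] at h3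
      exact hg.trans (h3.trans le_self_add)
    · have h3 := le_of_walk F s(a, b) h2 p hw.2
      rw [h0, zero_add] at h3
      exact hg.trans (h3.trans le_self_add)

theorem cert_of_girth {V : Type*} {H : SimpleGraph V} (g : ℕ)
    (hH : ∀ (v : V) (w : H.Walk v v), w.IsCycle → g < w.length) {x y : V} (hxy : H.Adj x y) :
    ∃ F : V → ℕ∞, F x = 0 ∧ (g : ℕ∞) ≤ F y ∧
      ∀ u v, H.Adj u v → s(u, v) ≠ s(x, y) → F v ≤ F u + 1 := by
  classical
  refine ⟨fun v => (H.deleteEdges {s(x, y)}).edist x v, by simp, ?_, ?_⟩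
  · by_contra hlt
    push Not at hlt
    obtain ⟨p, hp⟩ := exists_walk_of_edist_ne_top (ne_top_of_lt hlt)
    rw [← hp] at hlt
    have hlt' : p.length < g := by exact_mod_cast hlt
    have hq1 : p.bypass.length ≤ p.length := p.length_bypass_le_length
    have hq2 : p.bypass.IsPath := p.bypass_isPath
    have hle : H.deleteEdges {s(x, y)} ≤ H := deleteEdges_le _
    have hc : (Walk.cons hxy.symm (p.bypass.mapLe hle)).IsCycle := by
      rw [Walk.cons_isCycle_iff]
      refine ⟨hq2.mapLe hle, ?_⟩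
      rw [Walk.edges_mapLe_eq_edges]
      intro hmem
      have h1 := Walk.edges_subset_edgeSet _ hmem
      rw [edgeSet_deleteEdges] at h1
      exact h1.2 Sym2.eq_swap
    have h2 := hH _ _ hc
    rw [Walk.length_cons] at h2
    simp only [Walk.length_map, Walk.mapLe] at h2
    omega
  · intro u v huv hne
    have h1 : (H.deleteEdges {s(x, y)}).Adj u v := by
      rw [deleteEdges_adj]
      exact ⟨huv, by simpa using hne⟩
    calc (H.deleteEdges {s(x, y)}).edist x v
        ≤ (H.deleteEdges {s(x, y)}).edist x u + (H.deleteEdges {s(x, y)}).edist u v :=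
          SimpleGraph.edist_triangle
      _ = _ := by rw [edist_eq_one_iff_adj.2 h1]

end Pool.Agent.X145.DN
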