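import Pool.Agent.X145.DN.Wt

set_option autoImplicit false

namespace Pool.Agent.X145.DN

open Finset SimpleGraph Filter Topology

theorem main_graph (g : ℕ) (ε : ℝ) (hε : 0 < ε) (hε2 : ε ≤ 1 / 2) :
    ∃ (W : Type) (_ : Fintype W) (G : SimpleGraph W), MinDegTwo G ∧ (g : ℕ∞) ≤ G.egirth ∧
      ∀ a b : ℕ, 0 < b → (∃ φ, IsDomCol G a b φ) → (a : ℝ) / b ≤ 5 / 2 + 6 * ε := by
  classical
  obtain ⟨d, hd⟩ : ∃ d : ℕ, 8 / ε ^ 2 ≤ d := exists_nat_ge _
  obtain ⟨V, hV, hne, H, hdeg, hgirth⟩ := H709Exc.girth_graph.{0} (d + 2) g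
  let f := Fintype.equivFin V
  set E : Finset (V × V) := univ.filter fun p => H.Adj p.1 p.2 ∧ f p.1 < f p.2 with hEdef
  have hE1 : ∀ x y, H.Adj x y → (x, y) ∈ E ∨ (y, x) ∈ E := by
    intro x y hxy
    rw [hEdef, mem_filter, mem_filter]
    rcases lt_trichotomy (f x) (f y) with h | h | h
    · exact Or.inl ⟨mem_univ _, hxy, h⟩
    · exact absurd (f.injective h) hxy.ne
    · exact Or.inr ⟨mem_univ _, hxy.symm, h⟩
  have hE2 : ∀ e ∈ E, H.Adj e.1 e.2 := by
    intro e he
    rw [hEdef, mem_filter] at he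
    exact he.2.1
  have hE3 : ∀ e ∈ E, f e.1 < f e.2 := by
    intro e he
    rw [hEdef, mem_filter] at he
    exact he.2.2
  have hcount : Fintype.card V * (d + 2) ≤ 2 * E.card := by
    calc Fintype.card V * (d + 2) = ∑ _v : V, (d + 2) := by simp
      _ ≤ ∑ v : V, (univ.filter fun w => H.Adj v w).card := by
          refine Finset.sum_le_sum fun v _ => ?_
          obtain ⟨S, hS, hS'⟩ := hdeg v
          refine hS.trans (card_le_card fun w hw => ?_)
          rw [mem_filter]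
          exact ⟨mem_univ _, hS' w hw⟩
      _ = (univ.filter fun p : V × V => H.Adj p.1 p.2).card := by
          simp_rw [Finset.card_filter]
          rw [Fintype.sum_prod_type]
      _ ≤ (E ∪ E.image Prod.swap).card := by
          refine card_le_card fun p hp => ?_
          rw [mem_filter] at hp
          rw [mem_union, mem_image]
          rcases hE1 _ _ hp.2 with h | h
          · exact Or.inl h
          · exact Or.inr ⟨_, h, rfl⟩
      _ ≤ E.card + (E.image Prod.swap).card := card_union_le _ _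
      _ ≤ E.card + E.card := Nat.add_le_add_left card_image_le _
      _ = 2 * E.card := by ring
  have hN : 1 ≤ Fintype.card V := Fintype.card_pos
  have hEcard : 1 ≤ E.card := by nlinarith
  have hEne : E.Nonempty := card_pos.1 hEcard
  obtain ⟨N, hNd⟩ : ∃ N : ℝ, N = Fintype.card V := ⟨_, rfl⟩
  obtain ⟨m, hm⟩ : ∃ m : ℝ, m = E.card := ⟨_, rfl⟩
  have hN1 : 1 ≤ N := by rw [hNd]; exact_mod_cast hN
  have hm1 : 1 ≤ m := by rw [hm]; exact_mod_cast hEcard
  have hcountR : N * (d + 2) ≤ 2 * m := by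
    rw [hNd, hm]
    exact_mod_cast hcount
  have hd8 : 8 ≤ ε ^ 2 * d := by
    rw [div_le_iff₀ (by positivity)] at hd
    linarith
  obtain ⟨κ, hκ⟩ := exists_col E hEne
    (fun S : Finset V => E.filter fun e => e.1 ∈ S ∧ e.2 ∈ S) (fun S => filter_subset _ _) ε hε (by
      rw [Fintype.card_finset, ← hm]
      push_cast
      have h1 : Real.log (2 * 2 ^ Fintype.card V) = (N + 1) * Real.log 2 := by
        rw [Real.log_mul (by norm_num) (by positivity), Real.log_pow, hNd]
        ring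
      rw [h1]
      have h2 : Real.log 2 ≤ 1 := by
        have := Real.log_two_lt_d9
        linarith
      have h2' : 0 ≤ Real.log 2 := Real.log_nonneg (by norm_num)
      have h3 : (N + 1) * Real.log 2 ≤ 2 * N := by nlinarith
      have h4 : 8 * N ≤ ε ^ 2 * d * N := by nlinarith
      have h5 : ε ^ 2 * (N * (d + 2)) ≤ ε ^ 2 * (2 * m) := by gcongr
      have h6 : 0 ≤ ε ^ 2 * N := by positivity
      nlinarith)
  rw [← hm] at hκ
  refine ⟨V ⊕ Th E κ, inferInstance, sub E κ, ?_, ?_, ?_⟩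
  · apply sub_deg
    · intro e he
      exact (hE2 e he).ne
    · exact hEne
    · intro v
      obtain ⟨S, hS, hS'⟩ := hdeg v
      obtain ⟨u, hu, u', hu', hne'⟩ := one_lt_card.1 (show 1 < S.card by omega)
      have a1 := hS' u hu
      have a2 := hS' u' hu'
      rcases hE1 _ _ a1 with h1 | h1 <;> rcases hE1 _ _ a2 with h2 | h2
      · refine ⟨_, h1, _, h2, ?_, Or.inl rfl, Or.inl rfl⟩
        intro h; exact hne' (Prod.ext_iff.1 h).2
      · refine ⟨_, h1, _, h2, ?_, Or.inl rfl, Or.inr rfl⟩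
        intro h; exact a1.ne (Prod.ext_iff.1 h).2.symm
      · refine ⟨_, h1, _, h2, ?_, Or.inr rfl, Or.inl rfl⟩
        intro h; exact a1.ne (Prod.ext_iff.1 h).1.symm
      · refine ⟨_, h1, _, h2, ?_, Or.inr rfl, Or.inr rfl⟩
        intro h; exact hne' (Prod.ext_iff.1 h).1
  · apply sub_girth
    intro e0 he0
    obtain ⟨F, f0, f1, f2⟩ := cert_of_girth g hgirth (hE2 e0 he0)
    refine ⟨F, f0, f1, fun e he hne' => ?_⟩
    have hs : s(e.1, e.2) ≠ s(e0.1, e0.2) := by
      intro h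
      rw [Sym2.eq_iff] at h
      rcases h with h | h
      · exact hne' (Prod.ext h.1 h.2)
      · have b1 := hE3 e he
        have b2 := hE3 e0 he0
        rw [h.1, h.2] at b1
        exact absurd b1 (not_lt.2 b2.le)
    exact ⟨f2 _ _ (hE2 e he).symm (by rw [Sym2.eq_swap]; exact hs), f2 _ _ (hE2 e he) hs⟩
  · rintro a b hb ⟨φ, hφ⟩
    have hT : ∑ x, wt E κ x ≤ (5 / 2 + ε / 2) * m := by
      rw [sum_wt]
      have h1 := hκ univ
      have h2 : (E.filter fun e => e.1 ∈ (univ : Finset V) ∧ e.2 ∈ (univ : Finset V)) = E := by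
        simp
      rw [h2] at h1
      have h3 : ∑ e ∈ E, (if κ e = true then (2 : ℝ) else 3) =
          5 / 2 * m + 1 / 2 * ∑ e ∈ E, (if κ e = true then (-1 : ℝ) else 1) := by
        rw [hm, Finset.mul_sum, Finset.card_eq_sum_ones, Nat.cast_sum, Finset.mul_sum,
          ← Finset.sum_add_distrib]
        refine Finset.sum_congr rfl fun e _ => ?_
        split_ifs <;> norm_num
      rw [h3]
      have h4 := (abs_le.1 h1).2
      linarith
    have hD : ∀ D : Set (V ⊕ Th E κ), IsDom (sub E κ) D →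
        (1 - ε) * m ≤ ∑ v, if v ∈ D then wt E κ v else 0 := by
      intro D hD
      refine le_trans ?_ (dom_wt E κ D hD)
      have h1 := hκ (univ.filter fun v => (Sum.inl v : V ⊕ Th E κ) ∈ D)
      simp only [mem_filter, mem_univ, true_and] at h1
      rw [Finset.sum_filter] at h1
      rw [Finset.sum_add_distrib]
      have h2 : ∑ _e ∈ E, (1 : ℝ) = m := by rw [hm]; simp
      rw [h2]
      have h4 := (abs_le.1 h1).1
      linarith
    have h5 := ratio_le (sub E κ) (wt E κ) _ _ hT hD a b φ hφ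
    have hb0 : (0 : ℝ) < b := by exact_mod_cast hb
    rw [div_le_iff₀ hb0]
    have h6 : (a : ℝ) * (1 - ε) ≤ b * (5 / 2 + ε / 2) := by
      have : (a : ℝ) * (1 - ε) * m ≤ b * (5 / 2 + ε / 2) * m := by linarith
      exact le_of_mul_le_mul_right this (by linarith)
    have h7 : (5 / 2 + ε / 2 : ℝ) ≤ (5 / 2 + 6 * ε) * (1 - ε) := by nlinarith
    have h8 : (a : ℝ) * (1 - ε) ≤ ((5 / 2 + 6 * ε) * b) * (1 - ε) := by
      calc (a : ℝ) * (1 - ε) ≤ b * (5 / 2 + ε / 2) := h6
        _ ≤ b * ((5 / 2 + 6 * ε) * (1 - ε)) := by gcongr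
        _ = _ := by ring
    exact le_of_mul_le_mul_right h8 (by linarith)

theorem fdom_le {V : Type*} (G : SimpleGraph V) (c : ℝ)
    (h : ∀ a b : ℕ, 0 < b → (∃ φ, IsDomCol G a b φ) → (a : ℝ) / b ≤ c) : fdom G ≤ c := by
  apply csSup_le
  · exact ⟨1, 1, 1, by norm_num, le_rfl, ⟨fun _ => univ, by simp, fun i v => Or.inl (Finset.mem_univ i)⟩,
      by norm_num⟩
  · rintro q ⟨a, b, hb, -, hφ, rfl⟩
    exact h a b hb hφ

theorem fdom_nonneg {V : Type*} (G : SimpleGraph V) : 0 ≤ fdom G := by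
  apply Real.sSup_nonneg
  rintro q ⟨a, b, hb, -, hφ, rfl⟩
  positivity

/-- the values of the fractional domatic number on the finite graphs of minimum degree exactly two
and girth at least `g` -/
def values (g : ℕ) : Set ℝ :=
  {q | ∃ (V : Type) (_ : Finite V) (G : SimpleGraph V), MinDegTwo G ∧ (g : ℕ∞) ≤ G.egirth ∧
    q = fdom G}

theorem values_bdd (g : ℕ) : BddBelow (values g) := by
  refine ⟨0, ?_⟩
  rintro q ⟨V, _, G, -, -, rfl⟩
  exact fdom_nonneg G

theorem main_values (g : ℕ) (ε : ℝ) (hε : 0 < ε) : ∃ q ∈ values g, q ≤ 5 / 2 + ε := by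
  obtain ⟨W, hW, G, h1, h2, h3⟩ := main_graph g (min (ε / 6) (1 / 2)) (by positivity)
    (min_le_right _ _)
  refine ⟨fdom G, ⟨W, inferInstance, G, h1, h2, rfl⟩, (fdom_le G _ h3).trans ?_⟩
  have := min_le_left (ε / 6) (1 / 2)
  linarith

theorem inf_le (g : ℕ) : sInf (values g) ≤ 5 / 2 := by
  refine le_of_forall_pos_le_add fun ε hε => ?_
  obtain ⟨q, hq, hq'⟩ := main_values g ε hε
  exact (csInf_le (values_bdd g) hq).trans hq'

theorem inf_mono : Monotone fun g => sInf (values g) := by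
  intro g g' hgg
  obtain ⟨q, hq, -⟩ := main_values g' 1 one_pos
  apply csInf_le_csInf (values_bdd g) ⟨q, hq⟩
  rintro q ⟨V, hV, G, h1, h2, h3⟩
  exact ⟨V, hV, G, h1, le_trans (by exact_mod_cast hgg) h2, h3⟩

theorem exists_L : ∃ L : ℝ, Tendsto (fun g => sInf (values g)) atTop (𝓝 L) ∧ L ≤ 5 / 2 := by
  have hb : BddAbove (Set.range fun g => sInf (values g)) := by
    refine ⟨5 / 2, ?_⟩
    rintro _ ⟨g, rfl⟩
    exact inf_le g
  have h := tendsto_atTop_ciSup inf_mono hb
  exact ⟨_, h, le_of_tendsto' h inf_le⟩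

theorem L_eq (g₀ : ℕ) (h : ∀ q ∈ values g₀, 5 / 2 ≤ q) :
    (∀ g, g₀ ≤ g → sInf (values g) = 5 / 2) ∧
    Tendsto (fun g => sInf (values g)) atTop (𝓝 (5 / 2)) := by
  have h1 : ∀ g, g₀ ≤ g → sInf (values g) = 5 / 2 := by
    intro g hg
    apply le_antisymm (inf_le g)
    obtain ⟨q, hq, -⟩ := main_values g₀ 1 one_pos
    exact (le_csInf ⟨q, hq⟩ h).trans (inf_mono hg)
  refine ⟨h1, ?_⟩
  apply tendsto_const_nhds.congr'
  filter_upwards [eventually_ge_atTop g₀] with g hg
  exact (h1 g hg).symm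

end Pool.Agent.X145.DN
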