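import Pool.Agent.X145.DN.Basic

set_option autoImplicit false

namespace Pool.Agent.X145.DN

open Finset SimpleGraph

/-- minimum degree exactly two -/
def MinDegTwo {V : Type*} (G : SimpleGraph V) : Prop :=
  (∀ v, 2 ≤ (G.neighborSet v).ncard) ∧ ∃ v, (G.neighborSet v).ncard = 2

section
variable {V : Type} (E : Finset (V × V)) (κ : V × V → Bool)

/-- thread vertices -/
abbrev Th : Type := {p : (V × V) × Bool // p.1 ∈ E ∧ (p.2 = true → κ p.1 = true)}

/-- base relation of the subdivided graph -/
def rel : V ⊕ Th E κ → V ⊕ Th E κ → Prop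
  | Sum.inl v, Sum.inr p => (p.1.2 = false ∧ v = p.1.1.1) ∨ (p.1.2 = κ p.1.1 ∧ v = p.1.1.2)
  | Sum.inr p, Sum.inr q => p.1.1 = q.1.1 ∧ p.1.2 = false ∧ q.1.2 = true
  | _, _ => False

/-- every edge of `E` is subdivided once (`κ = false`) or twice (`κ = true`) -/
def sub : SimpleGraph (V ⊕ Th E κ) := SimpleGraph.fromRel (rel E κ)

variable {E κ}

theorem sub_lr (v : V) (p : Th E κ) : (sub E κ).Adj (Sum.inl v) (Sum.inr p) ↔
    (p.1.2 = false ∧ v = p.1.1.1) ∨ (p.1.2 = κ p.1.1 ∧ v = p.1.1.2) := by
  unfold sub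
  rw [SimpleGraph.fromRel_adj]
  simp [rel]

theorem sub_ll (v w : V) : ¬ (sub E κ).Adj (Sum.inl v) (Sum.inl w) := by
  unfold sub
  rw [SimpleGraph.fromRel_adj]
  simp [rel]

theorem sub_rr (p q : Th E κ) : (sub E κ).Adj (Sum.inr p) (Sum.inr q) ↔
    p.1.1 = q.1.1 ∧ p.1.2 ≠ q.1.2 := by
  unfold sub
  rw [SimpleGraph.fromRel_adj]
  obtain ⟨⟨e, b⟩, hp⟩ := p
  obtain ⟨⟨e', b'⟩, hq⟩ := q
  simp only [rel, ne_eq, Sum.inr.injEq, Subtype.mk.injEq, Prod.mk.injEq]
  cases b <;> cases b' <;> simp [eq_comm]

/-- the function on the subdivided graph -/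
noncomputable def lift (F : V → ℕ∞) (e0 : V × V) (c : Bool → ℕ∞) : V ⊕ Th E κ → ℕ∞ := by
  classical
  exact fun x => match x with
  | Sum.inl v => F v
  | Sum.inr q => if q.1.1 = e0 then c q.1.2 else (if q.1.2 = true then F q.1.1.2 else F q.1.1.1)

theorem sub_girth (g : ℕ∞)
    (hF : ∀ e0 ∈ E, ∃ F : V → ℕ∞, F e0.1 = 0 ∧ g ≤ F e0.2 ∧
      ∀ e ∈ E, e ≠ e0 → F e.1 ≤ F e.2 + 1 ∧ F e.2 ≤ F e.1 + 1) : g ≤ (sub E κ).egirth := by
  classical
  -- reduction to a Lipschitz condition on base relations
  have key : ∀ (e0 : V × V) (F : V → ℕ∞) (c : Bool → ℕ∞) (s : Sym2 (V ⊕ Th E κ)),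
      (∀ e ∈ E, e ≠ e0 → F e.1 ≤ F e.2 + 1 ∧ F e.2 ≤ F e.1 + 1) →
      (∀ (p : Th E κ), p.1.1 = e0 → p.1.2 = false → s(Sum.inl p.1.1.1, Sum.inr p) ≠ s →
        c false = F e0.1) →
      (∀ (p : Th E κ), p.1.1 = e0 → p.1.2 = κ e0 → s(Sum.inl p.1.1.2, Sum.inr p) ≠ s →
        c (κ e0) = F e0.2) →
      (∀ (p q : Th E κ), p.1.1 = e0 → q.1.1 = e0 → p.1.2 = false → q.1.2 = true →
        s(Sum.inr p, Sum.inr q) ≠ s → c false = c true) →
      ∀ u v, (sub E κ).Adj u v → s(u, v) ≠ s →
        lift (E := E) (κ := κ) F e0 c v ≤ lift (E := E) (κ := κ) F e0 c u + 1 := by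
    intro e0 F c s hL h1 h2 h3
    have hlr : ∀ (v : V) (p : Th E κ), (sub E κ).Adj (Sum.inl v) (Sum.inr p) →
        s(Sum.inl v, Sum.inr p) ≠ s →
        lift (E := E) (κ := κ) F e0 c (Sum.inl v) ≤ lift (E := E) (κ := κ) F e0 c (Sum.inr p) + 1 ∧
        lift (E := E) (κ := κ) F e0 c (Sum.inr p) ≤ lift (E := E) (κ := κ) F e0 c (Sum.inl v) + 1 := by
      intro v p hadj hne
      rw [sub_lr] at hadj
      simp only [lift]
      by_cases hp : p.1.1 = e0
      · rw [if_pos hp]
        rcases hadj with ⟨hb, hv⟩ | ⟨hb, hv⟩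
        · subst hv
          have := h1 p hp hb hne
          rw [hb, this, hp]
          exact ⟨le_self_add, le_self_add⟩
        · subst hv
          rw [hp] at hb
          have := h2 p hp hb hne
          rw [hb, this, hp]
          exact ⟨le_self_add, le_self_add⟩
      · rw [if_neg hp]
        have := hL _ p.2.1 hp
        rcases hadj with ⟨hb, hv⟩ | ⟨hb, hv⟩
        · subst hv
          rw [hb]
          simp
        · subst hv
          split_ifs
          · exact ⟨le_self_add, le_self_add⟩
          · exact ⟨this.2, this.1⟩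
    have hrr : ∀ (p q : Th E κ), p.1.1 = q.1.1 → p.1.2 = false → q.1.2 = true →
        s(Sum.inr p, Sum.inr q) ≠ s →
        lift (E := E) (κ := κ) F e0 c (Sum.inr p) ≤ lift (E := E) (κ := κ) F e0 c (Sum.inr q) + 1 ∧
        lift (E := E) (κ := κ) F e0 c (Sum.inr q) ≤ lift (E := E) (κ := κ) F e0 c (Sum.inr p) + 1 := by
      intro p q hpq hp0 hq1 hne
      simp only [lift]
      by_cases hp : p.1.1 = e0
      · have hq : q.1.1 = e0 := hpq ▸ hp
        rw [if_pos hp, if_pos hq]
        have := h3 p q hp hq hp0 hq1 hne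
        rw [hp0, hq1, this]
        exact ⟨le_self_add, le_self_add⟩
      · have hq : q.1.1 ≠ e0 := fun h => hp (hpq.trans h)
        rw [if_neg hp, if_neg hq, hp0, hq1, ← hpq]
        simpa using hL _ p.2.1 hp
    intro u v huv hne
    rcases u with u | p <;> rcases v with v | q
    · exact absurd huv (sub_ll _ _)
    · exact (hlr u q huv hne).2
    · exact (hlr v p huv.symm (by rw [Sym2.eq_swap]; exact hne)).1
    · rw [sub_rr] at huv
      obtain ⟨h4, h5⟩ := huv
      cases hp : p.1.2 with
      | false =>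
        have hq : q.1.2 = true := by
          rw [hp] at h5
          cases hq : q.1.2 with
          | false => exact absurd hq.symm h5
          | true => rfl
        exact (hrr p q h4 hp hq hne).2
      | true =>
        have hq : q.1.2 = false := by
          rw [hp] at h5
          cases hq : q.1.2 with
          | true => exact absurd hq.symm h5
          | false => rfl
        exact (hrr q p h4.symm hq hp (by rw [Sym2.eq_swap]; exact hne)).1
  -- the three kinds of edges
  have hA : ∀ (v : V) (p : Th E κ), (sub E κ).Adj (Sum.inl v) (Sum.inr p) →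
      ∃ F : V ⊕ Th E κ → ℕ∞, ((F (Sum.inl v) = 0 ∧ g ≤ F (Sum.inr p)) ∨
        (F (Sum.inr p) = 0 ∧ g ≤ F (Sum.inl v))) ∧
      ∀ u w, (sub E κ).Adj u w → s(u, w) ≠ s(Sum.inl v, Sum.inr p) → F w ≤ F u + 1 := by
    intro v p hadj
    obtain ⟨F, f0, f1, f2⟩ := hF p.1.1 p.2.1
    rw [sub_lr] at hadj
    rcases hadj with ⟨hb, hv⟩ | ⟨hb, hv⟩
    · subst hv
      refine ⟨lift F p.1.1 fun _ => F p.1.1.2, Or.inl ⟨f0, ?_⟩, ?_⟩
      · simp only [lift, if_true]
        exact f1
      · apply key p.1.1 F _ _ f2
        · intro q hq hq0 hne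
          exfalso
          apply hne
          have : q = p := Subtype.ext (Prod.ext hq (hq0.trans hb.symm))
          rw [this]
        · intro q hq hq0 hne
          rfl
        · intro q q' _ _ _ _ _
          rfl
    · subst hv
      refine ⟨lift F p.1.1 fun _ => F p.1.1.1, Or.inr ⟨?_, f1⟩, ?_⟩
      · simp only [lift, if_true]
        exact f0
      · apply key p.1.1 F _ _ f2
        · intro q hq hq0 hne
          rfl
        · intro q hq hq0 hne
          exfalso
          apply hne
          have : q = p := Subtype.ext (Prod.ext hq (hq0.trans hb.symm))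
          rw [this]
        · intro q q' _ _ _ _ _
          rfl
  have hB : ∀ (p q : Th E κ), p.1.1 = q.1.1 → p.1.2 = false → q.1.2 = true →
      ∃ F : V ⊕ Th E κ → ℕ∞, (F (Sum.inr p) = 0 ∧ g ≤ F (Sum.inr q)) ∧
      ∀ u w, (sub E κ).Adj u w → s(u, w) ≠ s(Sum.inr p, Sum.inr q) → F w ≤ F u + 1 := by
    intro p q hpq hp0 hq1
    obtain ⟨F, f0, f1, f2⟩ := hF p.1.1 p.2.1
    refine ⟨lift F p.1.1 fun b => if b = true then F p.1.1.2 else F p.1.1.1, ⟨?_, ?_⟩, ?_⟩
    · simp only [lift, if_true, hp0]
      simpa using f0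
    · simp only [lift, hpq, if_true, hq1]
      rw [← hpq]
      exact f1
    · apply key p.1.1 F _ _ f2
      · intro r hr hr0 hne
        simp
      · intro r hr hr0 hne
        have hk : κ p.1.1 = true := by
          rw [hpq]
          exact q.2.2 hq1
        rw [hk]
        simp
      · intro r r' hr hr' hr0 hr1 hne
        exfalso
        apply hne
        have e1 : r = p := Subtype.ext (Prod.ext hr (hr0.trans hp0.symm))
        have e2 : r' = q := Subtype.ext (Prod.ext (hr'.trans hpq) (hr1.trans hq1.symm))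
        rw [e1, e2]
  apply girth_of_cert
  intro a b hab
  rcases a with a | p <;> rcases b with b | q
  · exact absurd hab (sub_ll _ _)
  · exact hA a q hab
  · obtain ⟨F, h1, h2⟩ := hA b p hab.symm
    refine ⟨F, h1.symm, ?_⟩
    rw [Sym2.eq_swap]
    exact h2
  · rw [sub_rr] at hab
    obtain ⟨h4, h5⟩ := hab
    cases hp : p.1.2 with
    | false =>
      have hq : q.1.2 = true := by
        rw [hp] at h5
        cases hq : q.1.2 with
        | false => exact absurd hq.symm h5
        | true => rfl
      obtain ⟨F, h1, h2⟩ := hB p q h4 hp hq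
      exact ⟨F, Or.inl h1, h2⟩
    | true =>
      have hq : q.1.2 = false := by
        rw [hp] at h5
        cases hq : q.1.2 with
        | true => exact absurd hq.symm h5
        | false => rfl
      obtain ⟨F, h1, h2⟩ := hB q p h4.symm hq hp
      refine ⟨F, Or.inr h1, ?_⟩
      rw [Sym2.eq_swap]
      exact h2

theorem sub_deg [Finite V] (hE : ∀ e ∈ E, e.1 ≠ e.2) (hne : E.Nonempty)
    (hdeg : ∀ v : V, ∃ e ∈ E, ∃ e' ∈ E, e ≠ e' ∧ (v = e.1 ∨ v = e.2) ∧ (v = e'.1 ∨ v = e'.2)) :
    MinDegTwo (sub E κ) := by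
  classical
  have hth : ∀ p : Th E κ, ((sub E κ).neighborSet (Sum.inr p)).ncard = 2 := by
    intro p
    obtain ⟨⟨e, b⟩, he, hb⟩ := p
    simp only at he hb
    have hcases : κ e = false ∨ κ e = true := by cases κ e <;> simp
    rcases hcases with hk | hk
    · have hb0 : b = false := by
        cases b with
        | false => rfl
        | true => exact absurd (hb rfl) (by rw [hk]; simp)
      subst hb0
      have : (sub E κ).neighborSet (Sum.inr ⟨(e, false), he, hb⟩) = {Sum.inl e.1, Sum.inl e.2} := by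
        ext x
        rw [mem_neighborSet]
        rcases x with v | q
        · rw [adj_comm, sub_lr]
          simp [hk]
        · rw [sub_rr]
          simp only [Set.mem_insert_iff, Set.mem_singleton_iff, reduceCtorEq, or_self, iff_false,
            not_and, not_not]
          intro h1
          cases hq : q.1.2 with
          | false => rfl
          | true =>
            have := q.2.2 hq
            rw [← h1, hk] at this
            exact absurd this (by simp)
      rw [this, Set.ncard_pair]
      intro h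
      exact hE e he (Sum.inl.inj h)
    · cases b with
      | false =>
        have : (sub E κ).neighborSet (Sum.inr ⟨(e, false), he, hb⟩) =
            {Sum.inl e.1, Sum.inr ⟨(e, true), he, fun _ => hk⟩} := by
          ext x
          rw [mem_neighborSet]
          rcases x with v | q
          · rw [adj_comm, sub_lr]
            simp [hk]
          · rw [sub_rr]
            obtain ⟨⟨e', b'⟩, hq⟩ := q
            simp only [Set.mem_insert_iff, Set.mem_singleton_iff, reduceCtorEq, false_or,
              Sum.inr.injEq, Subtype.mk.injEq, Prod.mk.injEq]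
            cases b' <;> simp [eq_comm]
        rw [this, Set.ncard_pair]
        simp
      | true =>
        have : (sub E κ).neighborSet (Sum.inr ⟨(e, true), he, hb⟩) =
            {Sum.inl e.2, Sum.inr ⟨(e, false), he, fun h => absurd h (by simp)⟩} := by
          ext x
          rw [mem_neighborSet]
          rcases x with v | q
          · rw [adj_comm, sub_lr]
            simp [hk]
          · rw [sub_rr]
            obtain ⟨⟨e', b'⟩, hq⟩ := q
            simp only [Set.mem_insert_iff, Set.mem_singleton_iff, reduceCtorEq, false_or,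
              Sum.inr.injEq, Subtype.mk.injEq, Prod.mk.injEq]
            cases b' <;> simp [eq_comm]
        rw [this, Set.ncard_pair]
        simp
  constructor
  · intro x
    rcases x with v | p
    · obtain ⟨e, he, e', he', hne', hv, hv'⟩ := hdeg v
      have hex : ∀ f ∈ E, (v = f.1 ∨ v = f.2) → ∃ p : Th E κ, p.1.1 = f ∧
          (sub E κ).Adj (Sum.inl v) (Sum.inr p) := by
        intro f hf hvf
        rcases hvf with h | h
        · refine ⟨⟨(f, false), hf, fun h => absurd h (by simp)⟩, rfl, ?_⟩
          rw [sub_lr]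
          exact Or.inl ⟨rfl, h⟩
        · refine ⟨⟨(f, κ f), hf, fun h => h⟩, rfl, ?_⟩
          rw [sub_lr]
          exact Or.inr ⟨rfl, h⟩
      obtain ⟨p, hp, hpa⟩ := hex e he hv
      obtain ⟨q, hq, hqa⟩ := hex e' he' hv'
      have hpq : (Sum.inr p : V ⊕ Th E κ) ≠ Sum.inr q := by
        intro h
        have := Sum.inr.inj h
        rw [this, hq] at hp
        exact hne' hp.symm
      have : Finite (V ⊕ Th E κ) := inferInstance
      rw [← Set.ncard_pair hpq]
      apply Set.ncard_le_ncard _ (Set.toFinite _)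
      intro x hx
      rcases hx with rfl | rfl
      · exact hpa
      · exact hqa
    · exact (hth p).ge
  · obtain ⟨e, he⟩ := hne
    exact ⟨Sum.inr ⟨(e, false), he, fun h => absurd h (by simp)⟩, hth _⟩

end

end Pool.Agent.X145.DN
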