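import Pool.Agent.X145.DN.Sub

set_option autoImplicit false

namespace Pool.Agent.X145.DN

open Finset SimpleGraph

/-- dominating set -/
def IsDom {V : Type*} (G : SimpleGraph V) (D : Set V) : Prop := ∀ v, v ∈ D ∨ ∃ u ∈ D, G.Adj v u

/-- dominating `(a:b)`-colouring -/
def IsDomCol {V : Type*} (G : SimpleGraph V) (a b : ℕ) (φ : V → Finset (Fin a)) : Prop :=
  (∀ v, (φ v).card = b) ∧ ∀ i : Fin a, IsDom G {v | i ∈ φ v}

/-- fractional domatic number -/
noncomputable def fdom {V : Type*} (G : SimpleGraph V) : ℝ :=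
  sSup {q : ℝ | ∃ a b : ℕ, 0 < b ∧ b ≤ a ∧ (∃ φ, IsDomCol G a b φ) ∧ q = (a : ℝ) / b}

open Classical in
theorem ratio_le {V : Type*} [Fintype V] (G : SimpleGraph V) (y : V → ℝ) (T m : ℝ)
    (hT : ∑ v, y v ≤ T) (hD : ∀ D : Set V, IsDom G D → m ≤ ∑ v, if v ∈ D then y v else 0)
    (a b : ℕ) (φ : V → Finset (Fin a)) (h : IsDomCol G a b φ) : (a : ℝ) * m ≤ b * T := by
  calc (a : ℝ) * m = ∑ _i : Fin a, m := by simp
    _ ≤ ∑ i : Fin a, ∑ v, (if v ∈ {v | i ∈ φ v} then y v else 0) :=
        Finset.sum_le_sum fun i _ => by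
          have h5 := hD {v | i ∈ φ v} (h.2 i)
          refine h5.trans (le_of_eq (Finset.sum_congr rfl fun v _ => ?_))
          congr
    _ = ∑ v, ∑ i : Fin a, (if i ∈ φ v then y v else 0) := by
        rw [Finset.sum_comm]
        simp only [Set.mem_ofPred_eq]
    _ = ∑ v, (b : ℝ) * y v := by
        refine Finset.sum_congr rfl fun v _ => ?_
        rw [Finset.sum_ite_mem, Finset.univ_inter, Finset.sum_const, h.1 v, nsmul_eq_mul]
    _ = b * ∑ v, y v := by rw [Finset.mul_sum]
    _ ≤ b * T := by gcongr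

section
variable {V : Type} [Fintype V] [DecidableEq V] (E : Finset (V × V)) (κ : V × V → Bool)

theorem sum_th (t : (V × V) × Bool → ℝ) : ∑ p : Th E κ, t p.1 =
    ∑ e ∈ E, (t (e, false) + if κ e = true then t (e, true) else 0) := by
  have h1 : ∑ p ∈ ((E ×ˢ (univ : Finset Bool))).filter (fun p => p.2 = true → κ p.1 = true), t p =
      ∑ p : Th E κ, t p.1 := Finset.sum_subtype _ (by simp) t
  rw [← h1, Finset.sum_filter, Finset.sum_product]
  refine Finset.sum_congr rfl fun e _ => ?_
  rw [Fintype.sum_bool]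
  simp
  ring

/-- the weights -/
noncomputable def wt : V ⊕ Th E κ → ℝ
  | Sum.inl v => ∑ e ∈ E, if κ e = true then 0 else
      ((if v = e.1 then 1 else 0) + (if v = e.2 then 1 else 0))
  | Sum.inr _ => 1

theorem sum_wt : ∑ x, wt E κ x = ∑ e ∈ E, (if κ e = true then (2 : ℝ) else 3) := by
  rw [Fintype.sum_sum_type]
  have h1 : ∑ v : V, wt E κ (Sum.inl v) = ∑ e ∈ E, (if κ e = true then (0 : ℝ) else 2) := by
    simp only [wt]
    rw [Finset.sum_comm]
    refine Finset.sum_congr rfl fun e _ => ?_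
    split_ifs with hk
    · simp
    · rw [Finset.sum_add_distrib]
      simp
      norm_num
  have h2 : ∑ p : Th E κ, wt E κ (Sum.inr p) = ∑ e ∈ E, (if κ e = true then (2 : ℝ) else 1) := by
    simp only [wt]
    rw [sum_th E κ (fun _ => (1 : ℝ))]
    refine Finset.sum_congr rfl fun e _ => ?_
    split_ifs <;> norm_num
  rw [h1, h2, ← Finset.sum_add_distrib]
  refine Finset.sum_congr rfl fun e _ => ?_
  split_ifs <;> norm_num

open Classical in
theorem dom_wt (D : Set (V ⊕ Th E κ)) (hD : IsDom (sub E κ) D) :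
    ∑ e ∈ E, (1 + (if Sum.inl e.1 ∈ D ∧ Sum.inl e.2 ∈ D then (if κ e = true then (-1 : ℝ) else 1)
      else 0)) ≤ ∑ x, if x ∈ D then wt E κ x else 0 := by
  rw [Fintype.sum_sum_type]
  have h1 : ∑ v : V, (if Sum.inl v ∈ D then wt E κ (Sum.inl v) else 0) =
      ∑ e ∈ E, (if κ e = true then (0 : ℝ) else
        ((if Sum.inl e.1 ∈ D then 1 else 0) + (if Sum.inl e.2 ∈ D then 1 else 0))) := by
    have e1 : ∀ v : V, (if (Sum.inl v : V ⊕ Th E κ) ∈ D then wt E κ (Sum.inl v) else 0) =
        ∑ e ∈ E, if κ e = true then (0 : ℝ) else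
      ((if v = e.1 then (if (Sum.inl v : V ⊕ Th E κ) ∈ D then 1 else 0) else 0) +
        (if v = e.2 then (if (Sum.inl v : V ⊕ Th E κ) ∈ D then 1 else 0) else 0)) := by
      intro v
      by_cases hv : (Sum.inl v : V ⊕ Th E κ) ∈ D
      · simp only [hv, if_true, wt]
      · simp [hv]
    simp_rw [e1]
    rw [Finset.sum_comm]
    refine Finset.sum_congr rfl fun e _ => ?_
    by_cases hk : κ e = true
    · simp [hk]
    · simp only [if_neg hk]
      rw [Finset.sum_add_distrib]
      simp
  set t : (V × V) × Bool → ℝ := fun p =>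
    if h : p.1 ∈ E ∧ (p.2 = true → κ p.1 = true) then
      (if (Sum.inr ⟨p, h⟩ : V ⊕ Th E κ) ∈ D then 1 else 0) else 0 with ht
  have h2 : ∑ p : Th E κ, (if (Sum.inr p : V ⊕ Th E κ) ∈ D then wt E κ (Sum.inr p) else 0) =
      ∑ e ∈ E, (t (e, false) + if κ e = true then t (e, true) else 0) := by
    rw [← sum_th]
    refine Finset.sum_congr rfl fun p _ => ?_
    simp only [ht, wt]
    rw [dif_pos p.2]
  rw [h1, h2, ← Finset.sum_add_distrib]
  refine Finset.sum_le_sum fun e he => ?_
  have hp0 : (e, false).1 ∈ E ∧ ((e, false).2 = true → κ (e, false).1 = true) :=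
    ⟨he, fun h => absurd h (by simp)⟩
  have t0 : t (e, false) = if (Sum.inr ⟨(e, false), hp0⟩ : V ⊕ Th E κ) ∈ D then 1 else 0 := by
    rw [ht]
    exact dif_pos hp0
  have hdom0 := hD (Sum.inr ⟨(e, false), hp0⟩)
  by_cases hk : κ e = true
  · have hp1 : (e, true).1 ∈ E ∧ ((e, true).2 = true → κ (e, true).1 = true) :=
      ⟨he, fun _ => hk⟩
    have t1 : t (e, true) = if (Sum.inr ⟨(e, true), hp1⟩ : V ⊕ Th E κ) ∈ D then 1 else 0 := by
      rw [ht]
      exact dif_pos hp1
    have hdom1 := hD (Sum.inr ⟨(e, true), hp1⟩)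
    have d0 : (Sum.inr ⟨(e, false), hp0⟩ : V ⊕ Th E κ) ∈ D ∨ Sum.inl e.1 ∈ D ∨
        (Sum.inr ⟨(e, true), hp1⟩ : V ⊕ Th E κ) ∈ D := by
      rcases hdom0 with h | ⟨u, hu, hadj⟩
      · exact Or.inl h
      · rcases u with v | q
        · rw [adj_comm, sub_lr] at hadj
          simp only [true_and, hk] at hadj
          rcases hadj with h | ⟨h, -⟩
          · rw [← h]; exact Or.inr (Or.inl hu)
          · exact absurd h (by simp)
        · rw [sub_rr] at hadj
          obtain ⟨⟨e', b'⟩, hq⟩ := q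
          simp only at hadj
          obtain ⟨h3, h4⟩ := hadj
          subst h3
          cases b' with
          | false => exact absurd rfl h4
          | true => exact Or.inr (Or.inr hu)
    have d1 : (Sum.inr ⟨(e, true), hp1⟩ : V ⊕ Th E κ) ∈ D ∨ Sum.inl e.2 ∈ D ∨
        (Sum.inr ⟨(e, false), hp0⟩ : V ⊕ Th E κ) ∈ D := by
      rcases hdom1 with h | ⟨u, hu, hadj⟩
      · exact Or.inl h
      · rcases u with v | q
        · rw [adj_comm, sub_lr] at hadj
          simp only [hk, true_and] at hadj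
          rcases hadj with ⟨h, -⟩ | h
          · exact absurd h (by simp)
          · rw [← h]; exact Or.inr (Or.inl hu)
        · rw [sub_rr] at hadj
          obtain ⟨⟨e', b'⟩, hq⟩ := q
          simp only at hadj
          obtain ⟨h3, h4⟩ := hadj
          subst h3
          cases b' with
          | true => exact absurd rfl h4
          | false => exact Or.inr (Or.inr hu)
    rw [t0, t1]
    simp only [hk, if_true]
    by_cases a1 : (Sum.inr ⟨(e, false), hp0⟩ : V ⊕ Th E κ) ∈ D <;>
    by_cases a2 : (Sum.inr ⟨(e, true), hp1⟩ : V ⊕ Th E κ) ∈ D <;>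
    by_cases a3 : (Sum.inl e.1 : V ⊕ Th E κ) ∈ D <;>
    by_cases a4 : (Sum.inl e.2 : V ⊕ Th E κ) ∈ D <;>
    simp only [a1, a2, a3, a4, or_self, or_true, true_or, or_false, false_or] at d0 d1 <;>
    simp only [a1, a2, a3, a4, and_self, and_true, true_and, and_false, false_and, if_true,
      if_false] <;> norm_num
  · have hk' : κ e = false := by simpa using hk
    have d0 : (Sum.inr ⟨(e, false), hp0⟩ : V ⊕ Th E κ) ∈ D ∨ Sum.inl e.1 ∈ D ∨
        Sum.inl e.2 ∈ D := by
      rcases hdom0 with h | ⟨u, hu, hadj⟩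
      · exact Or.inl h
      · rcases u with v | q
        · rw [adj_comm, sub_lr] at hadj
          simp only [true_and, hk'] at hadj
          rcases hadj with h | h
          · rw [← h]; exact Or.inr (Or.inl hu)
          · rw [← h]; exact Or.inr (Or.inr hu)
        · rw [sub_rr] at hadj
          obtain ⟨⟨e', b'⟩, hq⟩ := q
          simp only at hadj
          obtain ⟨h3, h4⟩ := hadj
          subst h3
          cases b' with
          | false => exact absurd rfl h4
          | true => exact absurd (hq.2 rfl) hk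
    rw [t0]
    simp only [hk, if_false]
    by_cases a1 : (Sum.inr ⟨(e, false), hp0⟩ : V ⊕ Th E κ) ∈ D <;>
    by_cases a3 : (Sum.inl e.1 : V ⊕ Th E κ) ∈ D <;>
    by_cases a4 : (Sum.inl e.2 : V ⊕ Th E κ) ∈ D <;>
    simp only [a1, a3, a4, or_self, or_true, true_or, or_false, false_or] at d0 <;>
    simp only [a1, a3, a4, and_self, and_true, true_and, and_false, false_and, if_true,
      if_false] <;> norm_num

end

end Pool.Agent.X145.DN
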